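import Pool.Agent.Q134.LTree

/-!
# A CPET tree whose vertices of degree four have at most one leaf as a neighbour

The spider `S(1, 2, 12, 15)` with 31 vertices. In the order arm with 15 vertices, centre, leaf, leg
with 2 vertices, leg with 12 vertices an interval of positions is connected unless it starts at
position 16, 17 or 18 and ends too late. Every partition of 31 can be arranged such that all its
intervals are connected; a block can be cut into its last vertex and the rest, so only the 1238
partitions without ones matter, and the kernel runs through them.
-/

set_option autoImplicit false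
set_option maxRecDepth 100000

open Pool.Agent.Q134.CP Pool.Agent.Q134.LT

namespace Pool.Agent.Results.MP_6c5f5a_co.OneLeaf

/-- parents -/
def par (j : ℕ) : ℕ := if j = 17 ∨ j = 19 then 15 else j - 1

/-- an interval starting at `s` and ending before `lim s` is connected -/
def lim (s : ℕ) : ℕ := if s = 16 then 17 else if s = 17 ∨ s = 18 then 19 else s + 100

theorem check : allOK lim 1000 100 31 2 [] = true := by decide +kernel

lemma par_lt (j : ℕ) (h : 1 ≤ j) : par j < j := by unfold par; split_ifs <;> omega

/-- **Theorem.** There is a tree `T` with 31 vertices and maximum degree `4` that has a connected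
partition of every type, and in which every vertex of degree `4` is adjacent to at most one leaf. -/
theorem result : ∃ (T : SimpleGraph (Fin 31)) (_ : DecidableRel T.Adj), T.IsTree ∧
    T.maxDegree = 4 ∧ IsCPET T ∧
    ∀ v, T.degree v = 4 → (Finset.univ.filter fun w => T.Adj v w ∧ T.degree w = 1).card ≤ 1 := by
  have h1 : ∀ v, (tree 31 par).degree v ≤ 4 := by decide +kernel
  have h2 : (tree 31 par).degree 15 = 4 := by decide +kernel
  refine ⟨tree 31 par, inferInstance, isTree (by norm_num) par_lt (by decide +kernel), ?_,
    cpet (by norm_num) par_lt ?_ ?_ check, by decide +kernel⟩
  · refine le_antisymm ((tree 31 par).maxDegree_le_of_forall_degree_le 4 h1) ?_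
    rw [← h2]
    exact (tree 31 par).degree_le_maxDegree 15
  · intro s j hj hj'
    unfold lim at hj'
    unfold par
    split_ifs at hj' ⊢ <;> omega
  · intro s
    unfold lim
    split_ifs <;> omega

end Pool.Agent.Results.MP_6c5f5a_co.OneLeaf
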